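import Mathlib
import Pool.Agent.V11310.Colored4

namespace Pool.Agent.Results.MP_c5dce0_nt.Valuation

open Pool.Agent.V11310.Colored4

/-- For all `s ≥ 2`, `n ≥ 1`: `ν₂(S_{4,2^s}(n)) = s + 1 + (ν₂(2n) mod 2)`. -/
theorem result (s n : ℕ) (hs : 2 ≤ s) (hn : 1 ≤ n) :
    emultiplicity (2 : ℤ) (S 4 (2 ^ s) n) = ((s + 1 + padicValNat 2 (2 * n) % 2 : ℕ) : ℕ∞) := by
  obtain ⟨M, hM, hS⟩ := valuation (a := s) (u := 1) hs (by norm_num) hn
  rw [mul_one] at hS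
  rw [hS, emultiplicity_eq_coe]
  refine ⟨dvd_mul_right _ _, fun h => ?_⟩
  rw [pow_succ] at h
  have := (mul_dvd_mul_iff_left (by positivity)).1 h
  omega

end Pool.Agent.Results.MP_c5dce0_nt.Valuation
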